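import Pool.Agent.P8H96.RL.Stm

/-!
Package CRW of project RL: the area bound for crowded multisets.
-/

set_option autoImplicit false

open Polynomial
open scoped Real

namespace Pool.Agent.P8H20.RL

open H904L2 H904L2.Envelope Pool.Agent.N772.CZ Pool.Agent.P8H96.RL

theorem crw : S_CRW := by
  classical
  intro s hs0 A hA h
  have hπ := Real.pi_pos
  obtain ⟨n, hndef⟩ : ∃ n : ℝ, n = s.card := ⟨_, rfl⟩
  rw [← hndef] at h ⊢
  have hn' : 0 < n := by rw [hndef]; exact_mod_cast hs0
  unfold area
  have hpt : ∀ x, RF {z : ℂ | z ∈ s} x ≤ (s.map fun w => wt A n w x).sum := by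
    intro x
    have hnn : ∀ y ∈ s.map (fun w => wt A n w x), 0 ≤ y := by
      intro y hy
      obtain ⟨w, -, rfl⟩ := Multiset.mem_map.1 hy
      exact wt_nonneg hA hn' w x
    apply RF_le (Multiset.sum_nonneg hnn)
    intro z hz
    have hzs : z ∈ s := hz
    by_cases hcase : n * Real.log ‖z‖ < A
    · refine le_trans ?_ (Multiset.single_le_sum hnn (wt A n z x) (Multiset.mem_map_of_mem _ hzs))
      unfold wt
      rw [if_pos hcase]
      have : 0 ≤ A / n * (if 0 < Real.log ‖z‖ then (A * (A + 1) * Real.log ‖z‖)⁻¹ *
          tent (2 * (A * (A + 1) * Real.log ‖z‖)) z.arg x else 0) := by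
        apply mul_nonneg (by positivity)
        split_ifs with h
        · exact mul_nonneg (by positivity) (tent_nonneg _ _ _)
        · exact le_rfl
      linarith
    · push Not at hcase
      rcases le_or_gt (spike z x) 0 with h0 | h0
      · exact h0.trans (Multiset.sum_nonneg hnn)
      · have hlz : 0 < Real.log ‖z‖ := by
          by_contra hcon
          push Not at hcon
          nlinarith
        have hdz : dc (x - z.arg) < Real.log ‖z‖ := by
          unfold spike at h0
          by_contra hcon
          push Not at hcon
          rw [max_eq_left (by linarith)] at h0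
          exact lt_irrefl _ h0
        have h1 := h z hzs hcase
        have h2 : spike z x ≤ Real.log ‖z‖ := by
          unfold spike
          have := dc_nonneg (x - z.arg)
          exact max_le hlz.le (by linarith)
        have h3 : (s.countP (fun w => Real.log ‖z‖ ≤ A * Real.log ‖w‖ ∧
            ‖((w.arg - z.arg : ℝ) : AddCircle (2 * π))‖ ≤ A * Real.log ‖z‖) : ℝ) ≤
            (s.map fun w => n / A * wt A n w x).sum := by
          apply countP_le_sum
          · intro w
            exact mul_nonneg (by positivity) (wt_nonneg hA hn' w x)
          · rintro w ⟨hw1, hw2⟩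
            have hlw : 0 < Real.log ‖w‖ := by
              by_contra hcon
              push Not at hcon
              nlinarith
            have hdw : dc (x - w.arg) ≤ A * (A + 1) * Real.log ‖w‖ := by
              have h5 : dc (z.arg - w.arg) ≤ A * Real.log ‖z‖ := by
                have h6 : dc (z.arg - w.arg) = ‖((w.arg - z.arg : ℝ) : AddCircle (2 * π))‖ := by
                  unfold dc
                  rw [← norm_neg, ← AddCircle.coe_neg, neg_sub]
                rw [h6]
                exact hw2
              have h7 := dc_triangle (x - z.arg) (z.arg - w.arg)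
              rw [show x - z.arg + (z.arg - w.arg) = x - w.arg by ring] at h7
              have h8 : (A + 1) * Real.log ‖z‖ ≤ (A + 1) * (A * Real.log ‖w‖) :=
                mul_le_mul_of_nonneg_left hw1 (by linarith)
              nlinarith
            have h9 := tent_ge (r := A * (A + 1) * Real.log ‖w‖) (by positivity) hdw
            unfold wt
            rw [if_pos hlw]
            have h10 : 0 ≤ (if n * Real.log ‖w‖ < A then spike w x else 0) := by
              split_ifs
              · exact spike_nonneg _ _
              · exact le_rfl
            have h11 : n / A * ((if n * Real.log ‖w‖ < A then spike w x else 0) +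
                A / n * ((A * (A + 1) * Real.log ‖w‖)⁻¹ *
                tent (2 * (A * (A + 1) * Real.log ‖w‖)) w.arg x)) =
                n / A * (if n * Real.log ‖w‖ < A then spike w x else 0) +
                (A * (A + 1) * Real.log ‖w‖)⁻¹ *
                tent (2 * (A * (A + 1) * Real.log ‖w‖)) w.arg x := by
              have : A ≠ 0 := by positivity
              field_simp
            rw [h11]
            have h12 : 0 ≤ n / A * (if n * Real.log ‖w‖ < A then spike w x else 0) :=
              mul_nonneg (by positivity) h10
            linarith
        rw [Multiset.sum_map_mul_left, Multiset.countP_eq_card_filter] at h3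
        have h4 : n * Real.log ‖z‖ ≤ A * (n / A * (s.map fun w => wt A n w x).sum) := by
          refine h1.trans (mul_le_mul_of_nonneg_left ?_ (by linarith))
          refine le_trans (le_of_eq ?_) h3
          congr!
        have h5 : A * (n / A * (s.map fun w => wt A n w x).sum) =
            n * (s.map fun w => wt A n w x).sum := by
          have : A ≠ 0 := by positivity
          field_simp
        rw [h5] at h4
        exact h2.trans (le_of_mul_le_mul_left h4 hn')
  have hfin : ({z : ℂ | z ∈ s} : Set ℂ).Finite := by
    have : ({z : ℂ | z ∈ s} : Set ℂ) = (s.toFinset : Set ℂ) := by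
      ext z
      simp
    rw [this]
    exact s.toFinset.finite_toSet
  have hint : ∫ x in (-π)..π, RF {z : ℂ | z ∈ s} x ≤
      (s.map fun w => 9 * A ^ 3 / n * Real.posLog ‖w‖).sum := by
    refine le_trans ?_ (integral_multiset_sum_le s (wt A n) (wt_continuous A n) _
      (integral_wt hA hn'))
    apply intervalIntegral.integral_mono_on (by linarith)
      ((RF_continuous hfin).intervalIntegrable _ _)
      ((continuous_multiset_sum s (wt A n) (wt_continuous A n)).intervalIntegrable _ _)
    intro x _
    exact hpt x
  rw [Multiset.sum_map_mul_left] at hint
  calc n * ∫ x in (-π)..π, RF {z : ℂ | z ∈ s} x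
      ≤ n * (9 * A ^ 3 / n * (s.map fun w => Real.posLog ‖w‖).sum) :=
        mul_le_mul_of_nonneg_left hint hn'.le
    _ = _ := by field_simp

end Pool.Agent.P8H20.RL
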