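import Pool.Agent.P8H96.RL.Stm

/-!
Package EV of project RL: irreducible polynomials with two opposite zeros.
-/

set_option autoImplicit false

open Polynomial
open scoped Real NumberField

namespace Pool.Agent.P8H20.RL

open Pool.Agent.P8H96.RL

theorem ev : S_EV := by
  intro k _ _ P hm hi h0 σ x y hx hy hxy hsq
  have hyx : y = -x := by
    rcases sq_eq_sq_iff_eq_or_eq_neg.mp hsq with h | h
    · exact absurd h hxy
    · rw [h, neg_neg]
  set F : k[X] := P.map (algebraMap (𝓞 k) k) with hF
  have hFm : F.Monic := hm.map _
  have hinj : Function.Injective (algebraMap (𝓞 k) k) := FaithfulSMul.algebraMap_injective _ _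
  have hF0 : F.coeff 0 ≠ 0 := by
    rw [hF, coeff_map]
    intro h
    exact h0 (hinj (by rw [h, map_zero]))
  have hmapσ : P.map (emb σ) = F.map σ := by
    rw [hF, Polynomial.map_map]
    rfl
  have hx' : (F.map σ).eval x = 0 := by
    rw [← hmapσ]
    exact hx
  have hy' : (F.map σ).eval y = 0 := by
    rw [← hmapσ]
    exact hy
  have hcomp : ((F.comp (-X)).map σ).eval x = 0 := by
    rw [Polynomial.map_comp, eval_comp]
    simp only [Polynomial.map_neg, map_X, eval_neg, eval_X]
    rw [← hyx]
    exact hy'
  -- `F` divides `F(-X)`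
  have hdvd : F ∣ F.comp (-X) := by
    by_contra hn
    · have h : IsCoprime F (F.comp (-X)) := (Irreducible.coprime_iff_not_dvd hi).2 hn
      obtain ⟨a, b, hab⟩ := h
      have h1 := congrArg (fun q : k[X] => (q.map σ).eval x) hab
      simp only [Polynomial.map_add, Polynomial.map_mul, eval_add, eval_mul, Polynomial.map_one,
        eval_one] at h1
      rw [hx', hcomp] at h1
      simp at h1
  obtain ⟨c, hc⟩ := hdvd
  have hcoeff : ∀ n, (F.comp (-X)).coeff n = (-1) ^ n * F.coeff n := by
    intro n
    have h1 : (-X : k[X]) = C (-1) * X := by simp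
    rw [h1, comp_C_mul_X_coeff, mul_comm]
  have hFne : F ≠ 0 := hFm.ne_zero
  have hne : F.comp (-X) ≠ 0 := by
    intro h
    have := hcoeff 0
    rw [h] at this
    simp at this
    exact hF0 this.symm
  have hc0 : c ≠ 0 := by
    rintro rfl
    exact hne (by rw [hc, mul_zero])
  have hdeg : (F.comp (-X)).natDegree = F.natDegree := by
    rw [natDegree_comp]
    simp
  have hcd : c.natDegree = 0 := by
    rw [hc, natDegree_mul hFne hc0] at hdeg
    omega
  obtain ⟨u, rfl⟩ := natDegree_eq_zero.mp hcd
  have hu : u = 1 := by
    have h1 := hcoeff 0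
    rw [hc] at h1
    simp only [coeff_mul_C, pow_zero, one_mul] at h1
    have : F.coeff 0 * (u - 1) = 0 := by linear_combination h1
    rcases mul_eq_zero.mp this with h | h
    · exact absurd h hF0
    · linear_combination h
  subst hu
  have hodd : ∀ n, ¬ 2 ∣ n → P.coeff n = 0 := by
    intro n hn
    have h1 := hcoeff n
    rw [hc] at h1
    have hodd : Odd n := by
      rcases Nat.even_or_odd n with h | h
      · exact absurd h.two_dvd hn
      · exact h
    rw [hodd.neg_one_pow] at h1
    simp only [map_one, mul_one, neg_mul, one_mul] at h1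
    have h2 : F.coeff n = 0 := by
      have : (2 : k) * F.coeff n = 0 := by linear_combination h1
      rcases mul_eq_zero.mp this with h | h
      · exact absurd h two_ne_zero
      · exact h
    rw [hF, coeff_map] at h2
    exact hinj (by rw [h2, map_zero])
  have hexp : expand (𝓞 k) 2 (contract 2 P) = P := by
    ext n
    rw [coeff_expand (by norm_num : 0 < 2)]
    split_ifs with h
    · rw [coeff_contract (by norm_num), Nat.div_mul_cancel h]
    · rw [hodd n h]
  refine ⟨contract 2 P, ?_, ?_, ?_⟩
  · have : (expand (𝓞 k) 2 (contract 2 P)).Monic := by rw [hexp]; exact hm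
    exact (monic_expand_iff (by norm_num)).mp this
  · apply of_irreducible_expand (p := 2) (by norm_num)
    rw [← map_expand, hexp]
    exact hi
  · conv_lhs => rw [← hexp]
    rw [expand_eq_comp_X_pow]

end Pool.Agent.P8H20.RL
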