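import Pool.Agent.P8H96.RL.Stm

/-!
Package HZ of project RL: the Hankel determinants vanish.
-/

set_option autoImplicit false

open Polynomial
open scoped Real NumberField

namespace Pool.Agent.P8H20.RL

open Pool.Agent.P8H96.RL

/-- a nonzero algebraic integer has norm at least one -/
theorem one_le_prod {k : Type} [Field k] [NumberField k] (x : 𝓞 k) (hx : x ≠ 0) :
    1 ≤ ∏ σ : k →+* ℂ, ‖emb σ x‖ := by
  have h1 : algebraMap ℚ ℂ (Algebra.norm ℚ (x : k)) = ∏ σ : k →ₐ[ℚ] ℂ, σ (x : k) :=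
    Algebra.norm_eq_prod_embeddings ℚ ℂ (x : k)
  have h2 : ∏ σ : k →+* ℂ, ‖emb σ x‖ = ∏ σ : k →ₐ[ℚ] ℂ, ‖σ (x : k)‖ := by
    refine Fintype.prod_equiv (RingHom.equivRatAlgHom k ℂ) _ _ fun σ => ?_
    rfl
  rw [h2, ← norm_prod, ← h1, ← Algebra.coe_norm_int]
  have h3 : Algebra.norm ℤ x ≠ 0 := by
    rw [Ne, Algebra.norm_eq_zero_iff]
    exact hx
  have h4 : (1 : ℤ) ≤ |Algebra.norm ℤ x| := Int.one_le_abs h3
  have h5 : ‖algebraMap ℚ ℂ ((Algebra.norm ℤ x : ℤ) : ℚ)‖ = ((|Algebra.norm ℤ x| : ℤ) : ℝ) := by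
    simp
  rw [h5]
  exact_mod_cast h4

theorem hz : S_HZ := by
  intro k _ _ c κ b C hκ hC hb
  set K : ℝ := ∑ σ, κ σ with hK
  set B : ℝ := ∑ σ, b σ with hB
  set P : ℝ := ∏ σ, C σ with hP
  set m : ℕ := Fintype.card (k →+* ℂ) with hm
  have hP0 : 0 ≤ P := Finset.prod_nonneg fun σ _ => hC σ
  set Q : ℝ := P + 1 with hQ
  have hQ0 : 0 < Q := by linarith
  -- the exponent is eventually negative
  have hlim : ∀ᶠ N : ℕ in Filter.atTop, (m : ℝ) * Real.log N + (B + Real.log Q) < -K * N := by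
    have h1 : Filter.Tendsto (fun x : ℝ => (m : ℝ) * (Real.log x / x) + (B + Real.log Q) / x)
        Filter.atTop (nhds ((m : ℝ) * 0 + 0)) := by
      apply Filter.Tendsto.add
      · apply Filter.Tendsto.const_mul
        have := Real.tendsto_pow_log_div_mul_add_atTop 1 0 1 (by norm_num)
        simpa using this
      · exact tendsto_const_nhds.div_atTop Filter.tendsto_id
    rw [mul_zero, add_zero] at h1
    have h2 := h1.comp tendsto_natCast_atTop_atTop
    have h3 : ∀ᶠ N : ℕ in Filter.atTop,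
        ((fun x : ℝ => (m : ℝ) * (Real.log x / x) + (B + Real.log Q) / x) ∘ (Nat.cast : ℕ → ℝ)) N < -K :=
      h2.eventually_lt_const (by linarith)
    filter_upwards [h3, Filter.eventually_gt_atTop 0] with N hN hN0
    have hN' : (0 : ℝ) < N := by exact_mod_cast hN0
    simp only [Function.comp] at hN
    have h4 : (m : ℝ) * (Real.log N / N) + (B + Real.log Q) / N =
        ((m : ℝ) * Real.log N + (B + Real.log Q)) / N := by ring
    rw [h4, div_lt_iff₀ hN'] at hN
    exact hN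
  obtain ⟨N0, hN0⟩ := Filter.eventually_atTop.1 hlim
  refine ⟨max N0 1, fun N hN => ?_⟩
  by_contra hne
  have hN1 : 0 < N := lt_of_lt_of_le Nat.one_pos ((le_max_right _ _).trans hN)
  have hNr : (0 : ℝ) < N := by exact_mod_cast hN1
  have h1 := one_le_prod _ hne
  have h2 : ∀ σ : k →+* ℂ, ‖emb σ (Matrix.of fun i j : Fin N => c ((i : ℕ) + (j : ℕ))).det‖ ≤
      Real.exp (N * b σ + (N : ℝ) ^ 2 * κ σ) * ((N.factorial : ℝ) * C σ ^ N) := by
    intro σ
    have h3 := hb σ N hN1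
    rw [RingHom.map_det]
    exact h3
  have h3 : ∏ σ : k →+* ℂ, ‖emb σ (Matrix.of fun i j : Fin N => c ((i : ℕ) + (j : ℕ))).det‖ ≤
      ∏ σ : k →+* ℂ, (Real.exp (N * b σ + (N : ℝ) ^ 2 * κ σ) * ((N.factorial : ℝ) * C σ ^ N)) :=
    Finset.prod_le_prod (fun σ _ => norm_nonneg _) fun σ _ => h2 σ
  have h4 : ∏ σ : k →+* ℂ, (Real.exp (N * b σ + (N : ℝ) ^ 2 * κ σ) * ((N.factorial : ℝ) * C σ ^ N)) =
      Real.exp (N * B + (N : ℝ) ^ 2 * K) * ((N.factorial : ℝ) ^ m * P ^ N) := by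
    rw [Finset.prod_mul_distrib, Finset.prod_mul_distrib, Finset.prod_const, Finset.card_univ,
      Finset.prod_pow, ← Real.exp_sum, Finset.sum_add_distrib, ← Finset.mul_sum, ← Finset.mul_sum]
  have h5 : (N.factorial : ℝ) ≤ Real.exp (N * Real.log N) := by
    have e1 : (N.factorial : ℝ) ≤ (N : ℝ) ^ N := by exact_mod_cast Nat.factorial_le_pow N
    have e2 : Real.exp (N * Real.log N) = (N : ℝ) ^ N := by
      rw [mul_comm, Real.exp_mul, Real.exp_log hNr, Real.rpow_natCast]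
    rw [e2]
    exact e1
  have h6 : P ^ N ≤ Real.exp (N * Real.log Q) := by
    have e2 : Real.exp (N * Real.log Q) = Q ^ N := by
      rw [mul_comm, Real.exp_mul, Real.exp_log hQ0, Real.rpow_natCast]
    rw [e2]
    exact pow_le_pow_left₀ hP0 (by linarith) N
  have h7 : Real.exp (N * B + (N : ℝ) ^ 2 * K) * ((N.factorial : ℝ) ^ m * P ^ N) ≤
      Real.exp (N * B + (N : ℝ) ^ 2 * K) * (Real.exp (N * Real.log N) ^ m * Real.exp (N * Real.log Q)) := by
    gcongr
  have h8 : Real.exp (N * B + (N : ℝ) ^ 2 * K) * (Real.exp (N * Real.log N) ^ m * Real.exp (N * Real.log Q)) =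
      Real.exp (N * (((m : ℝ) * Real.log N + (B + Real.log Q)) + K * N)) := by
    rw [← Real.exp_nat_mul, ← Real.exp_add, ← Real.exp_add]
    congr 1
    ring
  have h9 : Real.exp (N * (((m : ℝ) * Real.log N + (B + Real.log Q)) + K * N)) < 1 := by
    rw [← Real.exp_zero, Real.exp_lt_exp]
    apply mul_neg_of_pos_of_neg hNr
    have := hN0 N ((le_max_left _ _).trans hN)
    linarith
  linarith

end Pool.Agent.P8H20.RL
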